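import Pool.Agent.K1H98.NF.Stm

/-! AUE: Auerbach basis among finitely many vectors -/

set_option autoImplicit false

namespace Pool.Agent.K1H86.NF

open Module Pool.Agent.K1H98.NF

theorem aue0 (V : Type) [AddCommGroup V] [Module ℚ V] (ι : Type) [Finite ι] (γ : ι → V) :
    ∃ (m : ℕ) (f : Fin m → ι), LinearIndependent ℚ (fun k => γ (f k)) ∧
      ∀ i, ∃ r : Fin m → ℚ, γ i = ∑ k, r k • γ (f k) ∧ ∀ k, |r k| ≤ 1 := by
  classical
  obtain ⟨κ, a, ha, hspan, hli⟩ := exists_linearIndependent' ℚ γ
  have : Finite κ := Finite.of_injective a ha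
  obtain ⟨m, ⟨e⟩⟩ := Finite.exists_equiv_fin κ
  let W : Submodule ℚ V := Submodule.span ℚ (Set.range γ)
  have hmem : ∀ i, γ i ∈ W := fun i => Submodule.subset_span ⟨i, rfl⟩
  let g : ι → W := fun i => ⟨γ i, hmem i⟩
  have hli' : LinearIndependent ℚ (fun k : Fin m => g (a (e.symm k))) := by
    have h1 : LinearIndependent ℚ (fun k : Fin m => γ (a (e.symm k))) := hli.comp _ e.symm.injective
    exact LinearIndependent.of_comp W.subtype h1
  have hsp' : ⊤ ≤ Submodule.span ℚ (Set.range (fun k : Fin m => g (a (e.symm k)))) := by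
    rintro ⟨x, hx⟩ -
    have hx' : x ∈ Submodule.span ℚ (Set.range (γ ∘ a)) := by rw [hspan]; exact hx
    have h2 : Set.range (γ ∘ a) = W.subtype '' (Set.range (fun k : Fin m => g (a (e.symm k)))) := by
      ext y
      constructor
      · rintro ⟨k, rfl⟩
        exact ⟨g (a k), ⟨e k, by simp⟩, rfl⟩
      · rintro ⟨_, ⟨k, rfl⟩, rfl⟩
        exact ⟨e.symm k, rfl⟩
    rw [h2, Submodule.span_image] at hx'
    obtain ⟨y, hy, hyx⟩ := hx'
    have : y = ⟨x, hx⟩ := Subtype.ext hyx
    rw [← this]; exact hy
  let b : Basis (Fin m) ℚ W := Basis.mk hli' hsp'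
  have hb : (fun k : Fin m => g (a (e.symm k))) = b := by
    ext k; simp [b]
  have : Nonempty (Fin m → ι) := ⟨fun k => a (e.symm k)⟩
  obtain ⟨f, hf⟩ := Finite.exists_max (fun f : Fin m → ι => |b.det (fun k => g (f k))|)
  have h1 : 1 ≤ |b.det (fun k => g (f k))| := by
    have := hf (fun k => a (e.symm k))
    rw [hb, b.det_self, abs_one] at this
    exact this
  have hu : IsUnit (b.det (fun k => g (f k))) := by
    rw [isUnit_iff_ne_zero]
    intro h0
    rw [h0, abs_zero] at h1
    linarith
  obtain ⟨hl, hs⟩ := (Basis.is_basis_iff_det b).mpr hu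
  refine ⟨m, f, ?_, ?_⟩
  · exact hl.map' W.subtype (by simp)
  · intro i
    let b' : Basis (Fin m) ℚ W := Basis.mk hl hs.ge
    have hb' : ∀ k, b' k = g (f k) := fun k => by simp [b']
    have hsum : g i = ∑ k, b'.repr (g i) k • g (f k) := by
      conv_lhs => rw [← b'.sum_repr (g i)]
      simp only [hb']
    refine ⟨fun k => b'.repr (g i) k, ?_, ?_⟩
    · have := congrArg W.subtype hsum
      simpa [map_sum] using this
    · intro k
      have h3 : b.det (Function.update (fun k => g (f k)) k (g i)) =
          b'.repr (g i) k * b.det (fun k => g (f k)) := by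
        conv_lhs => rw [hsum]
        have := MultilinearMap.map_update_sum b.det.toMultilinearMap Finset.univ k
          (fun j => b'.repr (g i) j • g (f j)) (fun k => g (f k))
        simp only [AlternatingMap.coe_multilinearMap] at this
        rw [this, Finset.sum_eq_single k]
        · rw [AlternatingMap.map_update_smul, Function.update_eq_self, smul_eq_mul]
        · intro j _ hj
          rw [AlternatingMap.map_update_smul, AlternatingMap.map_update_self _ _ hj.symm, smul_zero]
        · simp
      have h4 : |b.det (Function.update (fun k => g (f k)) k (g i))| ≤ |b.det (fun k => g (f k))| := by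
        have := hf (Function.update f k i)
        have h5 : (fun j => g (Function.update f k i j)) = Function.update (fun k => g (f k)) k (g i) := by
          ext j
          by_cases hj : j = k
          · subst hj; simp
          · simp [Function.update_of_ne hj]
        rw [h5] at this
        exact this
      rw [h3, abs_mul] at h4
      exact le_of_mul_le_mul_right (by simpa using h4) (by linarith)

theorem t_AUE : S_AUE := by
  classical
  intro V _ _ ι _ e he β
  let E : Submodule ℚ V := Submodule.span ℚ {e}
  obtain ⟨m, f, hl, h⟩ := aue0 (V ⧸ E) ι (fun i => E.mkQ (β i))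
  refine ⟨m, f, ?_, ?_⟩
  · rw [linearIndependent_finCons]
    constructor
    · exact LinearIndependent.of_comp E.mkQ hl
    · intro hmem
      rw [Submodule.mem_span_range_iff_exists_fun] at hmem
      obtain ⟨c, hc⟩ := hmem
      have h0 : ∑ k, c k • E.mkQ (β (f k)) = 0 := by
        have := congrArg E.mkQ hc
        rw [map_sum] at this
        simp only [map_smul] at this
        rw [this]
        simp only [Submodule.mkQ_apply]
        rw [Submodule.Quotient.mk_eq_zero]
        exact Submodule.mem_span_singleton_self e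
      have hc0 := Fintype.linearIndependent_iff.mp hl c h0
      apply he
      rw [← hc]
      simp [hc0]
  · intro i
    obtain ⟨r, hr, hr1⟩ := h i
    have hmem : β i - ∑ k, r k • β (f k) ∈ E := by
      rw [← Submodule.Quotient.mk_eq_zero, ← Submodule.mkQ_apply, map_sub, map_sum]
      simp only [map_smul]
      rw [hr, sub_self]
    rw [Submodule.mem_span_singleton] at hmem
    obtain ⟨r0, hr0⟩ := hmem
    refine ⟨r0, r, ?_, hr1⟩
    rw [hr0]; abel

end Pool.Agent.K1H86.NF

namespace Pool.Agent.K1H98.NF

theorem t_AUE : S_AUE := Pool.Agent.K1H86.NF.t_AUE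

end Pool.Agent.K1H98.NF

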